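import Pool.Agent.H29.HMF.Stmts

/-!
# Board `hmf`, row DT2: the determinant of `(v, η v)`
-/

set_option autoImplicit false

open Matrix MeasureTheory

namespace Pool.HMF

theorem dt2_alg (a b c d n0 n1 n2 n3 E F x y : ℝ) (hdet : a * d - b * c = 1)
    (e1 : n0 * a + n1 * c = a * E) (e2 : n0 * b + n1 * d = b * F)
    (e3 : n2 * a + n3 * c = c * E) (e4 : n2 * b + n3 * d = d * F) :
    x * (n2 * x + n3 * y) - (n0 * x + n1 * y) * y =
      (F - E) * ((d * x - b * y) * (-c * x + a * y)) := by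
  obtain ⟨p, hp⟩ : ∃ p, p = d * x - b * y := ⟨_, rfl⟩
  obtain ⟨q, hq⟩ : ∃ q, q = -c * x + a * y := ⟨_, rfl⟩
  have hx : x = a * p + b * q := by
    rw [hp, hq]
    linear_combination -x * hdet
  have hy : y = c * p + d * q := by
    rw [hp, hq]
    linear_combination -y * hdet
  have h1 : n0 * x + n1 * y = a * E * p + b * F * q := by
    rw [hx, hy]
    linear_combination p * e1 + q * e2
  have h2 : n2 * x + n3 * y = c * E * p + d * F * q := by
    rw [hx, hy]
    linear_combination p * e3 + q * e4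
  rw [h1, h2, ← hp, ← hq, hx, hy]
  linear_combination (F - E) * p * q * hdet

theorem dt2_thm (hBAS : BASS) : DT2S := by
  obtain ⟨hmul, hadd, hneg, -, -, -, -, -, -, -, -, -, hvec⟩ := hBAS
  intro g η l ε v hR i
  obtain ⟨-, hR2⟩ := hR i
  obtain ⟨x, hx⟩ : ∃ x : Fin 2 → ℝ, x = fun a => em i (v a) := ⟨_, rfl⟩
  have hv := hvec i η.1 v
  rw [← hx] at hv
  have hsub : ∀ s t, em i (s - t) = em i s - em i t := by
    intro s t
    rw [sub_eq_add_neg, hadd, hneg]
    ring
  have hL : em i (Wm η v).det =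
      x 0 * ((cm i η.1).mulVec x 1) - ((cm i η.1).mulVec x 0) * x 1 := by
    unfold Wm
    rw [Matrix.det_fin_two_of, hsub, hmul, hmul, ← hv, hx]
  have hC : cv g v i = ((g i)⁻¹ : S2).1.mulVec x := by
    unfold cv
    rw [hx]
  have hdet : (g i).1 0 0 * (g i).1 1 1 - (g i).1 0 1 * (g i).1 1 0 = 1 := by
    have := (g i).2
    rw [Matrix.det_fin_two] at this
    exact this
  have hE : ∀ a b, (cm i η.1 * (g i).1) a b = ((g i).1 * (ε i • dg (l i))) a b := by
    intro a b
    rw [hR2]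
  have e1 := hE 0 0
  have e2 := hE 0 1
  have e3 := hE 1 0
  have e4 := hE 1 1
  simp only [Matrix.mul_apply, Fin.sum_univ_two, dg, Matrix.smul_apply, Matrix.diagonal_apply,
    smul_eq_mul, Matrix.cons_val_zero, Matrix.cons_val_one, Fin.isValue, if_true,
    if_neg (by decide : ¬ (0 : Fin 2) = 1), if_neg (by decide : ¬ (1 : Fin 2) = 0), mul_zero,
    add_zero, zero_add] at e1 e2 e3 e4
  have key := dt2_alg ((g i).1 0 0) ((g i).1 0 1) ((g i).1 1 0) ((g i).1 1 1)
    (cm i η.1 0 0) (cm i η.1 0 1) (cm i η.1 1 0) (cm i η.1 1 1)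
    (ε i * Real.exp (l i)) (ε i * Real.exp (-l i)) (x 0) (x 1) hdet e1 e2 e3 e4
  rw [hL, hC]
  rw [Matrix.SpecialLinearGroup.coe_inv, Matrix.adjugate_fin_two]
  simp only [Matrix.mulVec, dotProduct, Fin.sum_univ_two, Matrix.of_apply, Matrix.cons_val_zero,
    Matrix.cons_val_one, Matrix.cons_val', Fin.isValue] at key ⊢
  linear_combination key

end Pool.HMF
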